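import Pool.Agent.H487.EF.Stm
import Pool.Agent.H277.ED.Spc

set_option autoImplicit false

/-!
Project EF of helper487, `S_SPX`: reality, simplicity and spacing of the zeros of `f^(k)` from
two-sided bounds of the half circle integral, scale free.
-/

open Finset Complex Filter Topology Metric Set MeasureTheory

namespace Pool.Agent.H548.EF

open Pool.Agent.H477.Jen
open Pool.Agent.H477.E
open Pool.Agent.H487.EF

/-- the logarithmic derivative, with a small loss, scale free -/
theorem logPx {P : ℂ → ℂ} (hP : Differentiable ℂ P) {lam M R η : ℝ} (hM : 0 < M) (hlam : 0 < lam)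
    (hR : 0 < R) (hη : 0 < η)
    (h2 : ∀ v : ℂ, ‖v‖ ≤ R → M * Real.exp (-(lam * v.im) - η * (lam * R)) ≤ ‖P v‖ ∧
      ‖P v‖ ≤ M * Real.exp (-(lam * v.im) + η * (lam * R))) {c : ℂ} (hc : ‖c‖ ≤ R / 2) :
    ‖deriv P c / P c - I * lam‖ ≤ 16 * η * lam := by
  have hPne : ∀ c : ℂ, ‖c‖ ≤ R → P c ≠ 0 := by
    intro c hc h0
    have := (h2 c hc).1
    rw [h0, norm_zero] at this
    have h3 : 0 < M * Real.exp (-(lam * c.im) - η * (lam * R)) := by positivity
    linarith
  set g : ℂ → ℂ := fun v => P (c + v) * exp (-(I * lam * (c + v))) with hg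
  have hgd : Differentiable ℂ g := by
    intro v
    have h1 : DifferentiableAt ℂ (fun v : ℂ => c + v) v := by fun_prop
    exact ((hP _).comp v h1).mul (by fun_prop)
  have hin : ∀ v : ℂ, ‖v‖ ≤ R / 2 → ‖c + v‖ ≤ R := by
    intro v hv
    refine (norm_add_le _ _).trans ?_
    linarith
  have hgn : ∀ v : ℂ, ‖g v‖ = ‖P (c + v)‖ * Real.exp (lam * (c + v).im) := by
    intro v
    rw [hg]
    simp only []
    rw [norm_mul, norm_exp]
    congr 2
    simp
  have hgb : ∀ v : ℂ, ‖v‖ ≤ R / 2 → M * Real.exp (-(η * (lam * R))) ≤ ‖g v‖ ∧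
      ‖g v‖ ≤ M * Real.exp (η * (lam * R)) := by
    intro v hv
    obtain ⟨h3, h4⟩ := h2 (c + v) (hin v hv)
    rw [hgn]
    constructor
    · calc M * Real.exp (-(η * (lam * R))) =
            (M * Real.exp (-(lam * (c + v).im) - η * (lam * R))) * Real.exp (lam * (c + v).im) := by
            rw [mul_assoc M, ← Real.exp_add]
            congr 2
            ring
        _ ≤ _ := by gcongr
    · calc ‖P (c + v)‖ * Real.exp (lam * (c + v).im) ≤
            (M * Real.exp (-(lam * (c + v).im) + η * (lam * R))) * Real.exp (lam * (c + v).im) := by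
            gcongr
        _ = _ := by
            rw [mul_assoc M, ← Real.exp_add]
            congr 2
            ring
  have hg0 : ‖(0:ℂ)‖ ≤ R / 2 := by
    rw [norm_zero]; positivity
  have hb := logder_bound hgd (show 0 < R / 2 by positivity)
    (show 0 < 2 * (η * (lam * R)) by positivity)
    (fun z hz h0 => by
      have := (hgb z hz).1
      rw [h0, norm_zero] at this
      have h3 : 0 < M * Real.exp (-(η * (lam * R))) := by positivity
      linarith)
    (fun z hz => by
      calc ‖g z‖ ≤ M * Real.exp (η * (lam * R)) := (hgb z hz).2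
        _ = Real.exp (2 * (η * (lam * R))) * (M * Real.exp (-(η * (lam * R)))) := by
            rw [mul_comm (Real.exp _), mul_assoc M, ← Real.exp_add]
            congr 2
            ring
        _ ≤ _ := by
            gcongr
            exact (hgb 0 hg0).1)
  have hd : deriv g 0 = deriv P c * exp (-(I * lam * c)) + P c * (exp (-(I * lam * c)) * (-(I * lam))) := by
    have h3 : HasDerivAt (fun v : ℂ => P (c + v)) (deriv P c) 0 := by
      have h4 : HasDerivAt (fun v : ℂ => c + v) 1 0 := (hasDerivAt_id (0:ℂ)).const_add c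
      have h5 := (hP (c + 0)).hasDerivAt.comp (0:ℂ) h4
      rw [mul_one, add_zero] at h5
      exact h5
    have h6 : HasDerivAt (fun v : ℂ => exp (-(I * lam * (c + v)))) (exp (-(I * lam * (c + 0))) * (-(I * lam * 1))) 0 := by
      have h7 : HasDerivAt (fun v : ℂ => -(I * lam * (c + v))) (-(I * lam * 1)) 0 :=
        (((hasDerivAt_id (0:ℂ)).const_add c).const_mul (I * lam)).neg
      exact h7.cexp
    have h8 := h3.mul h6
    have h9 := h8.deriv
    simp only [add_zero, mul_one] at h9
    exact h9
  have hg00 : g 0 = P c * exp (-(I * lam * c)) := by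
    rw [hg]
    simp only [add_zero]
  have hPc : P c ≠ 0 := hPne c (by linarith)
  have hq : deriv g 0 / g 0 = deriv P c / P c - I * lam := by
    rw [hd, hg00]
    have := exp_ne_zero (-(I * lam * c))
    field_simp
    ring
  rw [hq] at hb
  have h4 : 4 * (2 * (η * (lam * R))) / (R / 2) = 16 * η * lam := by
    field_simp
    ring
  rw [h4] at hb
  exact hb

/-- the derivative of the decomposition at a real point -/
theorem decomp_deriv {f : ℂ → ℂ} (hf : Differentiable ℂ f)
    (hr : ∀ z, f ((starRingEnd ℂ) z) = (starRingEnd ℂ) (f z)) {u : ℂ} (hu : (starRingEnd ℂ) u = -u)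
    (k : ℕ) (x : ℝ) :
    2 * Real.pi * (u ^ k * iteratedDeriv (k + 1) f x / k.factorial) =
      deriv (half f u k) x + (-1) ^ k * (starRingEnd ℂ) (deriv (half f u k) x) := by
  have hP : Differentiable ℂ (half f u k) := half_diff hf u k
  have h1 : HasDerivAt (fun s : ℝ => 2 * Real.pi * (u ^ k * iteratedDeriv k f (s : ℂ) / k.factorial))
      (2 * Real.pi * (u ^ k * iteratedDeriv (k + 1) f x / k.factorial)) x := by
    have h2 : Differentiable ℂ (iteratedDeriv k f) := by
      have := hf.contDiff (n := ⊤)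
      exact this.differentiable_iteratedDeriv k (by exact_mod_cast WithTop.coe_lt_top _)
    have h3 : HasDerivAt (iteratedDeriv k f) (iteratedDeriv (k + 1) f x) (x : ℂ) := by
      have h4 := (h2 (x : ℂ)).hasDerivAt
      rw [iteratedDeriv_succ]
      exact h4
    exact ((h3.comp_ofReal.const_mul (u ^ k)).div_const _).const_mul _
  have h5 : HasDerivAt (fun s : ℝ => half f u k (s : ℂ)) (deriv (half f u k) x) x :=
    (hP x).hasDerivAt.comp_ofReal
  have h6 : HasDerivAt (fun s : ℝ => (starRingEnd ℂ) (half f u k (s : ℂ)))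
      ((starRingEnd ℂ) (deriv (half f u k) x)) x :=
    conjCLE.toContinuousLinearMap.hasFDerivAt.comp_hasDerivAt x h5
  have h7 := h5.add (h6.const_mul ((-1) ^ k))
  refine h1.unique (h7.congr_of_eventuallyEq (Eventually.of_forall fun s => ?_))
  have h8 := half_decomp hf hr hu k (s : ℂ)
  rw [conj_ofReal] at h8
  exact h8

/-- **S_SPX.** -/
theorem spx_proof : S_SPX := by
  intro ε hε hε2
  refine ⟨ε / 160, by positivity, ?_⟩
  intro f M lam R k hf hreal hM hlam hR hk hB
  have hk0 : (0:ℝ) < k := by exact_mod_cast hk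
  obtain ⟨r, hrdef⟩ : ∃ r : ℝ, r = k / lam := ⟨_, rfl⟩
  have hr0 : 0 < r := by rw [hrdef]; positivity
  rw [← hrdef] at hB
  set u : ℂ := -(I * (r : ℂ)) with hu
  have huc : (starRingEnd ℂ) u = -u := by
    rw [hu, map_neg, map_mul, conj_I, conj_ofReal]
    ring
  have hun : u ≠ 0 := by
    rw [hu, neg_ne_zero]
    exact mul_ne_zero I_ne_zero (by exact_mod_cast hr0.ne')
  set P := half f u k with hPdef
  have hP : Differentiable ℂ P := half_diff hf u k
  have hpi0 := Real.pi_pos
  obtain ⟨w, hw, hwk⟩ : ∃ w : ℂ, w ≠ 0 ∧ ∀ z : ℂ, z + (-1) ^ k * (starRingEnd ℂ) z = 0 ↔ (w * z).re = 0 := by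
    rcases Nat.even_or_odd k with he | ho
    · refine ⟨1, one_ne_zero, fun z => ?_⟩
      rw [he.neg_one_pow, one_mul, one_mul, add_conj]
      norm_cast
      constructor
      · intro h; linarith
      · intro h; rw [h]; ring
    · refine ⟨I, I_ne_zero, fun z => ?_⟩
      rw [ho.neg_one_pow, neg_one_mul, ← sub_eq_add_neg, sub_conj]
      have : (I * z).re = -z.im := by simp
      rw [this]
      constructor
      · intro h
        have h3 : ((2 * z.im : ℝ) : ℂ) = 0 := by
          rcases mul_eq_zero.1 h with h4 | h4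
          · exact h4
          · exact absurd h4 I_ne_zero
        have h4 : 2 * z.im = 0 := by exact_mod_cast h3
        linarith
      · intro h
        have : z.im = 0 := by linarith
        rw [this]
        simp
  have hfac : (k.factorial : ℂ) ≠ 0 := by exact_mod_cast k.factorial_ne_zero
  have hpi : (2:ℂ) * Real.pi ≠ 0 := by
    have := Real.pi_ne_zero
    exact mul_ne_zero two_ne_zero (by exact_mod_cast this)
  have hcancel : ∀ z : ℂ, 2 * Real.pi * (u ^ k * z / k.factorial) = 0 ↔ z = 0 := by
    intro z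
    constructor
    · intro h5
      have h6 := (mul_eq_zero.1 h5).resolve_left hpi
      have h7 := (div_eq_zero_iff.1 h6).resolve_right hfac
      exact (mul_eq_zero.1 h7).resolve_left (pow_ne_zero _ hun)
    · intro h5
      rw [h5]
      simp
  have hzero : ∀ x : ℝ, iteratedDeriv k f (x:ℂ) = 0 ↔ (w * P x).re = 0 := by
    intro x
    have h4 := half_decomp hf hreal huc k (x:ℂ)
    rw [conj_ofReal, ← hPdef] at h4
    rw [← hwk, ← h4, hcancel]
  have hzero1 : ∀ x : ℝ, iteratedDeriv (k + 1) f (x:ℂ) = 0 ↔ (w * deriv P x).re = 0 := by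
    intro x
    have h4 := decomp_deriv hf hreal huc k x
    rw [← hPdef] at h4
    rw [← hwk, ← h4, hcancel]
  have hl : ∀ c : ℂ, ‖c‖ ≤ R / 2 → ‖deriv P c / P c - I * lam‖ ≤ ε / 10 * lam := by
    intro c hc
    have h3 := logPx hP hM hlam hR (show 0 < ε / 160 by positivity) hB hc
    refine h3.trans (le_of_eq ?_)
    ring
  have hne : ∀ c : ℂ, ‖c‖ ≤ R → P c ≠ 0 := by
    intro c hc h0
    have := (hB c hc).1
    rw [h0, norm_zero] at this
    have h3 : 0 < M * Real.exp (-(lam * c.im) - ε / 160 * (lam * R)) := by positivity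
    linarith
  have hlim : ∀ c : ℂ, ‖c‖ ≤ R / 2 → |(deriv P c / P c).im - lam| ≤ ε / 10 * lam := by
    intro c hc
    have h3 := (abs_im_le_norm _).trans (hl c hc)
    rw [sub_im] at h3
    have h5 : (I * (lam:ℂ)).im = lam := by simp
    rw [h5] at h3
    exact h3
  have hrn : ∀ x : ℝ, -(R / 2) ≤ x → x ≤ R / 2 → ‖(x : ℂ)‖ ≤ R / 2 := by
    intro x h1 h2
    rw [norm_real, Real.norm_eq_abs, abs_le]
    exact ⟨h1, h2⟩
  refine ⟨?_, ?_, ?_⟩
  · intro v hv h0
    -- reality
    have him : v.im = 0 := by
      by_contra hy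
      have hnorm : ‖P v‖ = ‖P ((starRingEnd ℂ) v)‖ := by
        by_contra hcon
        exact ne_zero_of_half hf hreal huc hcon h0
      obtain ⟨L, hL0, hL1, hL2⟩ := exists_log hP hR hne
      have hcv : ‖(starRingEnd ℂ) v‖ ≤ R / 2 := by rw [norm_conj]; exact hv
      have hball : ∀ z : ℂ, ‖z‖ ≤ R / 2 → z ∈ ball (0 : ℂ) R := by
        intro z hz
        rw [mem_ball_zero_iff]
        linarith
      have hmv : ‖(L v - I * lam * v) - (L ((starRingEnd ℂ) v) - I * lam * (starRingEnd ℂ) v)‖ ≤
          ε / 10 * lam * ‖v - (starRingEnd ℂ) v‖ := by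
        refine (convex_closedBall (0 : ℂ) (R / 2)).norm_image_sub_le_of_norm_hasDerivWithin_le
          (f := fun z => L z - I * lam * z) (f' := fun z => deriv P z / P z - I * lam)
          (fun x hx => ?_) (fun x hx => ?_)
          (mem_closedBall_zero_iff.2 hcv) (mem_closedBall_zero_iff.2 hv)
        · have h1 := hL1 x (hball x (mem_closedBall_zero_iff.1 hx))
          have h2 : HasDerivAt (fun z : ℂ => I * lam * z) (I * lam) x := by
            have h3 := (hasDerivAt_id x).const_mul (I * (lam : ℂ))
            rw [mul_one] at h3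
            exact h3
          exact (h1.sub h2).hasDerivWithinAt
        · exact hl x (mem_closedBall_zero_iff.1 hx)
      have e1 : v - (starRingEnd ℂ) v = ((2 * v.im : ℝ) : ℂ) * I := sub_conj v
      have hP0 : 0 < ‖P 0‖ := norm_pos_iff.2 (hne 0 (by rw [norm_zero]; exact hR.le))
      have hLre : (L v).re = (L ((starRingEnd ℂ) v)).re := by
        have h1 := hL2 v (hball v hv)
        have h2 := hL2 _ (hball _ hcv)
        rw [h1, h2, norm_mul, norm_mul, norm_exp, norm_exp] at hnorm
        have h3 := mul_left_cancel₀ hP0.ne' hnorm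
        exact Real.exp_injective h3
      have h5 := (abs_re_le_norm _).trans hmv
      have e2 : ((L v - I * lam * v) - (L ((starRingEnd ℂ) v) - I * lam * (starRingEnd ℂ) v)).re =
          2 * lam * v.im := by
        have e3 : (L v - I * lam * v) - (L ((starRingEnd ℂ) v) - I * lam * (starRingEnd ℂ) v) =
            (L v - L ((starRingEnd ℂ) v)) - I * lam * (v - (starRingEnd ℂ) v) := by ring
        rw [e3, e1, sub_re, sub_re, hLre]
        simp
        ring
      rw [e2, e1, norm_mul, norm_I, mul_one, norm_real, Real.norm_eq_abs, abs_mul, abs_mul, abs_mul,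
        abs_two, abs_of_pos hlam] at h5
      have h6 : 0 < |v.im| := abs_pos.2 hy
      have h7 : 0 < lam * |v.im| := mul_pos hlam h6
      nlinarith
    refine ⟨him, ?_⟩
    -- simplicity
    have hvx : v = ((v.re : ℝ) : ℂ) := by
      apply Complex.ext
      · simp
      · simp [him]
    intro h1
    rw [hvx] at h0 h1 hv
    have a0 := (hzero _).1 h0
    have a1 := (hzero1 _).1 h1
    have hPx := hne _ (hv.trans (by linarith))
    have hq := hlim _ hv
    set x := v.re
    have e4 : w * deriv P x = (w * P x) * (deriv P x / P x) := by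
      field_simp
    rw [e4, mul_re, a0, zero_mul, zero_sub, neg_eq_zero] at a1
    rcases mul_eq_zero.1 a1 with h8 | h8
    · exact mul_ne_zero hw hPx (Complex.ext a0 h8)
    · rw [h8] at hq
      have := (abs_le.1 hq).1
      nlinarith
  · -- existence
    intro a b ha hb hab
    by_contra hcon
    push Not at hcon
    have hab' : 0 < b - a := lt_of_lt_of_le (by positivity) hab
    have hin : ∀ x ∈ Set.Icc a b, ‖(x:ℂ)‖ ≤ R / 2 := by
      intro x hx
      exact hrn x (ha.trans hx.1) (hx.2.trans hb)
    have hder : ∀ x : ℝ, HasDerivAt (fun x : ℝ => w * P x) (w * deriv P x) x := fun x =>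
      ((hP x).hasDerivAt.comp_ofReal).const_mul w
    have hturn := turn' (q := fun x : ℝ => w * P x) (q' := fun x : ℝ => w * deriv P x) (a := a) (b := b)
      (m := (1 - ε / 10) * lam) (by linarith) (fun x _ => hder x)
      (fun x hx h0 => hcon x hx.1 hx.2 ((hzero x).2 h0))
      (fun x hx => by
        rw [mul_div_mul_left _ _ hw]
        have h3 := (abs_le.1 (hlim x (hin x hx))).1
        linarith)
    have h5 : (1 - ε / 10) * lam * ((1 + ε) * (Real.pi / lam)) ≤ (1 - ε / 10) * lam * (b - a) :=
      mul_le_mul_of_nonneg_left hab (mul_nonneg (by linarith) hlam.le)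
    have h6 : (1 - ε / 10) * lam * ((1 + ε) * (Real.pi / lam)) = (1 - ε / 10) * (1 + ε) * Real.pi := by
      field_simp
    have h7 : 1 < (1 - ε / 10) * (1 + ε) := by nlinarith
    have h9 : Real.pi < (1 - ε / 10) * (1 + ε) * Real.pi := by
      calc Real.pi = 1 * Real.pi := (one_mul _).symm
        _ < _ := mul_lt_mul_of_pos_right h7 hpi0
    linarith
  · intro x y hx hxy hy hxz hyz
    have e8 : (8 * R) / 8 = R := by ring
    have e16 : (8 * R) / 16 = R / 2 := by ring
    have h3 := Pool.Agent.H277.ED.two_zeros hP (r := 8 * R) (t := 0) (m := (1 - ε / 10) * lam)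
      (M := (1 + ε / 10) * lam) hw (by positivity) (mul_pos (by linarith) hlam)
      (fun c hc => by
        rw [ofReal_zero, sub_zero, e8] at hc
        exact hne c hc)
      (fun c hc => by
        rw [ofReal_zero, sub_zero, e16] at hc
        have h4 := abs_le.1 (hlim c hc)
        constructor <;> linarith [h4.1, h4.2])
      (x := x) (y := y) (by rw [e16]; linarith) hxy (by rw [e16]; linarith) ((hzero x).1 hxz) ((hzero y).1 hyz)
    have h4 : 0 < (1 + ε / 10) * lam := by positivity
    have h5 : (1 + ε / 10) * lam * ((1 - ε) * (Real.pi / lam)) ≤ Real.pi := by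
      have h6 : (1 + ε / 10) * lam * ((1 - ε) * (Real.pi / lam)) = (1 + ε / 10) * (1 - ε) * Real.pi := by
        field_simp
      rw [h6]
      have h7 : (1 + ε / 10) * (1 - ε) ≤ 1 := by nlinarith
      calc (1 + ε / 10) * (1 - ε) * Real.pi ≤ 1 * Real.pi :=
            mul_le_mul_of_nonneg_right h7 hpi0.le
        _ = Real.pi := one_mul _
    exact le_of_mul_le_mul_left (h5.trans h3) h4

end Pool.Agent.H548.EF
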